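import Mathlib

/-!
Determinants of arbitrary size: only the number of rows which contain variables matters
(helper34).
-/

set_option autoImplicit false

namespace Pool.AnySize

open MvPolynomial Matrix

variable {E σ : Type} [Field E]

theorem exists_eval_ne [Infinite E] (f : MvPolynomial σ E) (hf : f ≠ 0) :
    ∃ x0 : σ → E, eval x0 f ≠ 0 := by
  by_contra hcon
  push Not at hcon
  exact hf (MvPolynomial.funext fun x => by rw [hcon x, map_zero])

theorem totalDegree_mulC {s : ℕ} {δ : ℕ} (v : Fin s → MvPolynomial σ E) (c : Fin s → E)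
    (h : ∀ k, (v k).totalDegree ≤ δ) : (∑ k, v k * C (c k)).totalDegree ≤ δ := by
  refine (totalDegree_finsetSum _ _).trans (Finset.sup_le fun k _ => ?_)
  refine (totalDegree_mul _ _).trans ?_
  rw [totalDegree_C, add_zero]
  exact h k

/-- ELIMINATION. A determinant of any size whose rows outside `W` are constant is a constant times
a determinant of order `card W` with entries of the same degree. -/
theorem det_elim [Infinite E] {s m δ : ℕ} (A : Matrix (Fin s) (Fin s) (MvPolynomial σ E))
    (W : Finset (Fin s)) (hW : W.card ≤ m) (h0 : ∀ i, i ∉ W → ∀ j, ∃ c, A i j = C c)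
    (h1 : ∀ i j, (A i j).totalDegree ≤ δ) :
    ∃ (c : E) (w : ℕ) (B : Matrix (Fin w) (Fin w) (MvPolynomial σ E)), w ≤ m ∧
      (∀ i j, (B i j).totalDegree ≤ δ) ∧ A.det = C c * B.det := by
  classical
  by_cases hdet : A.det = 0
  · exact ⟨0, 0, fun i _ => i.elim0, Nat.zero_le _, fun i => i.elim0, by rw [hdet]; simp⟩
  obtain ⟨x0, hx0⟩ := exists_eval_ne A.det hdet
  set Q : Matrix (Fin s) (Fin s) E := A.map (eval x0) with hQ
  have hQdet : Q.det ≠ 0 := by
    rw [hQ, ← RingHom.mapMatrix_apply, ← RingHom.map_det]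
    exact hx0
  have hQQ : Q⁻¹ * Q = 1 := Matrix.nonsing_inv_mul Q (isUnit_iff_ne_zero.2 hQdet)
  have hQQ' : Q * Q⁻¹ = 1 := Matrix.mul_nonsing_inv Q (isUnit_iff_ne_zero.2 hQdet)
  set M : Matrix (Fin s) (Fin s) (MvPolynomial σ E) := A * (Q⁻¹).map C with hM
  have hMQ : M * Q.map C = A := by
    rw [hM, Matrix.mul_assoc, ← Matrix.map_mul, hQQ, Matrix.map_one _ (map_zero _) (map_one _),
      Matrix.mul_one]
  have hAM : A.det = C Q.det * M.det := by
    rw [← hMQ, Matrix.det_mul]
    have : (Q.map (C : E → MvPolynomial σ E)).det = C Q.det := by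
      have h2 := RingHom.map_det (C : E →+* MvPolynomial σ E) Q
      rw [h2]
      rfl
    rw [this, mul_comm]
  have hrow : ∀ i, i ∉ W → ∀ j, M i j = (1 : Matrix (Fin s) (Fin s) (MvPolynomial σ E)) i j := by
    intro i hi j
    have h2 : ∀ k, A i k = C (Q i k) := by
      intro k
      obtain ⟨c, hc⟩ := h0 i hi k
      rw [hQ, Matrix.map_apply, hc, eval_C]
    rw [hM, Matrix.mul_apply]
    simp only [Matrix.map_apply, h2, ← map_mul, ← map_sum]
    rw [← Matrix.mul_apply, hQQ', Matrix.one_apply, Matrix.one_apply]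
    split_ifs <;> simp
  have hblock := Matrix.twoBlockTriangular_det M (fun i => i ∈ W) (fun i hi j hj => by
    rw [hrow i hi, Matrix.one_apply_ne]
    rintro rfl
    exact hi hj)
  have hone : (toSquareBlockProp M fun i => ¬ i ∈ W).det = 1 := by
    have h2 : (toSquareBlockProp M fun i => ¬ i ∈ W) = 1 := by
      ext i j
      rw [toSquareBlockProp_def, Matrix.of_apply, hrow i.1 i.2, Matrix.one_apply, Matrix.one_apply]
      simp only [Subtype.ext_iff]
    rw [h2, Matrix.det_one]
  rw [hone, mul_one] at hblock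
  let e : Fin W.card ≃ {i // i ∈ W} := (Fintype.equivFinOfCardEq (by simp)).symm
  refine ⟨Q.det, W.card, (toSquareBlockProp M fun i => i ∈ W).submatrix e e, hW, ?_, ?_⟩
  · intro i j
    rw [Matrix.submatrix_apply, toSquareBlockProp_def, Matrix.of_apply, hM, Matrix.mul_apply]
    exact totalDegree_mulC (fun k => A (e i).1 k) (fun k => Q⁻¹ k (e j).1) fun k => h1 _ k
  · have h2 : ∀ (_ : Fintype {i // i ∈ W}) (_ : DecidableEq {i // i ∈ W}),
        (toSquareBlockProp M fun i => i ∈ W).det =
          ((toSquareBlockProp M fun i => i ∈ W).submatrix e e).det := by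
      intro I1 I2
      rw [Matrix.det_submatrix_equiv_self]
    rw [hAM, hblock]
    exact congrArg (fun z => C Q.det * z) (h2 _ _)

end Pool.AnySize
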