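import Pool.Agent.Helper34.AnySize.Gate
import Pool.Agent.Helper59.ADP.FinalF

/-!
# Adaptive randomised algorithms with zero tests for `k`-SAT: determinants of arbitrary size
(helper34)
-/

set_option autoImplicit false

namespace Pool.AnySize

open MvPolynomial Pool.SatDet Pool.Agent.Helper76.CDET Pool.AD Pool.FunK
open scoped BigOperators

/-- THE STATEMENT (internal form) -/
def AdaptiveIntG : Prop := ∀ (k : ℕ) (α : ℝ), 3 ≤ k → α < 1 → ∃ C : ℕ, 1 ≤ C ∧
    ∀ (F : Type) [Field F] (Ya Ω : Type) [Fintype Ω] (n N h e m T a g : ℕ) (μ ε₁ ε₂ : ℝ),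
    1 ≤ n → 1 ≤ N → 1 ≤ h → 1 ≤ e → 1 ≤ T → 1 ≤ μ → (N * m * min g n : ℝ) ≤ μ * n ^ k →
    0 ≤ ε₁ → 0 ≤ ε₂ → ε₁ + ε₂ ≤ α →
    ∀ (p : Ω → ℝ) (f : Ω → Fin N → MvPolynomial (Clause n k ⊕ Ya) F) (t : Ω → DT N),
    (∀ ω, 0 ≤ p ω) → ∑ ω, p ω = 1 →
    (∀ ω v, IsGateSum T a g m (f ω v)) →
    ((∀ ω v, ∀ ν ∈ (f ω v).support, ∀ C, ν (Sum.inl C) ≤ e) ∨ N * m * g ≤ e * n ^ k) →
    (∀ ω a, ((t ω).ones a).card ≤ h) →
    (∀ S, SatP n k S → Pool.MAJ.Pr p (fun ω => (t ω).eval (ans (f ω) S) = false) ≤ ε₁) →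
    (∀ S, ¬ SatP n k S → Pool.MAJ.Pr p (fun ω => (t ω).eval (ans (f ω) S) = true) ≤ ε₂) →
    Real.exp (n / (N * (C * h * e * μ) ^ (C * e))) ≤ 3 * N * (T * 2 ^ a)

theorem ans_tr {F Y V : Type} [Field F] [DecidableEq V] {N : ℕ}
    (f : Fin N → MvPolynomial (V ⊕ Y) F) (S : Finset V) :
    ans (fun v => tr F Y V (f v)) S = ans f S := by
  funext v
  unfold ans
  exact decide_eq_decide.2 (tr_restr_ne S (f v))

theorem adaptiveIntG_of (H : Pool.Agent.Helper59.ADP.AdaptiveIntF) : AdaptiveIntG := by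
  intro k α hk hα
  obtain ⟨C, hC, HC⟩ := H k α hk hα
  refine ⟨4 * C, by omega, ?_⟩
  intro F _ Y Ω _ n N h e m T a g μ ε₁ ε₂ hn hN hh he hT hμ hm h1 h2 h12 p f t hp hp1 hf hdeg ht
    hyes hno
  have h3 := HC (Big F Y) Empty Ω n N h (2 * e) (2 * m) T a g (2 * μ) ε₁ ε₂ hn hN hh (by omega) hT
    (by linarith) (by
      have h3 : ((2 * m : ℕ) : ℝ) = 2 * m := by push_cast; ring
      rw [h3]
      calc (N * (2 * m) * (min g n : ℕ) : ℝ) = 2 * (N * m * (min g n : ℕ)) := by ring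
        _ ≤ 2 * (μ * n ^ k) := by linarith
        _ = 2 * μ * n ^ k := by ring) h1 h2 h12 p (fun ω v => tr F Y (Clause n k) (f ω v)) t hp hp1
    (fun ω v => gateSum_tr (hf ω v))
    (by
      rcases hdeg with h4 | h4
      · left
        intro ω v ν hν D
        obtain ⟨μ', hμ', h5⟩ := tr_expo _ ν hν
        rw [h5]
        exact (h4 ω v μ' hμ' D).trans (by omega)
      · right
        calc N * (2 * m) * g = 2 * (N * m * g) := by ring
          _ ≤ 2 * (e * n ^ k) := Nat.mul_le_mul_left 2 h4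
          _ = 2 * e * n ^ k := by ring) ht
    (fun S hS => by
      have h6 := hyes S hS
      simp only [ans_tr]
      exact h6)
    (fun S hS => by
      have h6 := hno S hS
      simp only [ans_tr]
      exact h6)
  refine le_trans (Real.exp_le_exp.2 ?_) h3
  have hC' : (1 : ℝ) ≤ C := by exact_mod_cast hC
  have hh' : (1 : ℝ) ≤ h := by exact_mod_cast hh
  have he' : (1 : ℝ) ≤ e := by exact_mod_cast he
  have hN' : (1 : ℝ) ≤ N := by exact_mod_cast hN
  have hbase : (1 : ℝ) ≤ C * h * (2 * e : ℕ) * (2 * μ) := by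
    push_cast
    have h7 : (1 : ℝ) ≤ C * h := one_le_mul_of_one_le_of_one_le hC' hh'
    have h8 : (1 : ℝ) ≤ C * h * (2 * e) := one_le_mul_of_one_le_of_one_le h7 (by linarith)
    exact one_le_mul_of_one_le_of_one_le h8 (by linarith)
  have hpow : (C * h * (2 * e : ℕ) * (2 * μ) : ℝ) ^ (C * (2 * e)) ≤
      ((4 * C : ℕ) * h * e * μ) ^ (4 * C * e) := by
    have h9 : (C * h * (2 * e : ℕ) * (2 * μ) : ℝ) = (4 * C : ℕ) * h * e * μ := by
      push_cast
      ring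
    rw [← h9]
    exact pow_le_pow_right₀ hbase (by nlinarith)
  apply div_le_div_of_nonneg_left (Nat.cast_nonneg n)
  · have : (0 : ℝ) < (C * h * (2 * e : ℕ) * (2 * μ) : ℝ) ^ (C * (2 * e)) := by positivity
    positivity
  · exact mul_le_mul_of_nonneg_left hpow (by positivity)

theorem adaptiveG : AdaptiveIntG := adaptiveIntG_of Pool.Agent.Helper59.ADP.adaptiveF

end Pool.AnySize
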