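import Pool.Agent.Helper34.AnySize.Elim

/-!
Determinants of matrices `A + ∑ x_e B_e` of any order: only the sum of the ranks of the `B_e`
matters (helper34).
-/

set_option autoImplicit false

namespace Pool.AnySize

open MvPolynomial Matrix

theorem rank_factor {K : Type} [Field K] {s : ℕ} (B : Matrix (Fin s) (Fin s) K) :
    ∃ (U : Matrix (Fin s) (Fin B.rank) K) (D : Matrix (Fin B.rank) (Fin s) K), B = U * D := by
  classical
  have h0 : Module.finrank K (LinearMap.range B.mulVecLin) = B.rank := rfl
  let b : Module.Basis (Fin B.rank) K (LinearMap.range B.mulVecLin) :=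
    Module.finBasisOfFinrankEq K _ h0
  refine ⟨of fun i l => (b l).1 i, of fun l j => b.repr ⟨B.mulVecLin (Pi.single j 1),
    LinearMap.mem_range_self _ _⟩ l, ?_⟩
  refine Matrix.ext fun i j => ?_
  rw [Matrix.mul_apply]
  simp only [of_apply]
  have h1 := b.sum_repr ⟨B.mulVecLin (Pi.single j 1), LinearMap.mem_range_self _ _⟩
  have h2 := congrFun (congrArg Subtype.val h1) i
  simp only [Submodule.coe_sum, Submodule.coe_smul, Finset.sum_apply, Pi.smul_apply, smul_eq_mul]
    at h2
  have h3 : B.mulVecLin (Pi.single j 1) i = B i j := by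
    rw [mulVecLin_apply, mulVec_single_one, Matrix.col_apply]
  rw [← h3, ← h2]
  exact Finset.sum_congr rfl fun l _ => mul_comm _ _

theorem det_border {R J : Type} [CommRing R] [Fintype J] [DecidableEq J] {s : ℕ}
    (A : Matrix (Fin s) (Fin s) R) (U : Matrix (Fin s) J R) (D : Matrix J (Fin s) R) :
    (fromBlocks A U (-D) 1).det = (A + U * D).det := by
  rw [det_fromBlocks_one₂₂, Matrix.mul_neg, sub_neg_eq_add]

/-- a determinant with few rows with variables, from a bordered matrix -/
theorem det_rank {E V Z J : Type} [Field E] [Infinite E] [Fintype J] [DecidableEq J] {s m δ : ℕ}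
    (A : Matrix (Fin s) (Fin s) E) (U : Matrix (Fin s) J E)
    (D : Matrix J (Fin s) (MvPolynomial (V ⊕ Z) E)) (hJ : Fintype.card J ≤ m)
    (hD : ∀ i j, (D i j).totalDegree ≤ δ) :
    ∃ (c : E) (w : ℕ) (B : Matrix (Fin w) (Fin w) (MvPolynomial (V ⊕ Z) E)), w ≤ m ∧
      (∀ i j, (B i j).totalDegree ≤ δ) ∧
      ((A.map C : Matrix (Fin s) (Fin s) (MvPolynomial (V ⊕ Z) E)) +
        (U.map C : Matrix (Fin s) J (MvPolynomial (V ⊕ Z) E)) * D).det = C c * B.det := by
  classical
  have hcard : Fintype.card (Fin (s + Fintype.card J)) = Fintype.card (Fin s ⊕ J) := by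
    rw [Fintype.card_sum, Fintype.card_fin, Fintype.card_fin]
  let e : Fin (s + Fintype.card J) ≃ Fin s ⊕ J := Fintype.equivOfCardEq hcard
  set M : Matrix (Fin s ⊕ J) (Fin s ⊕ J) (MvPolynomial (V ⊕ Z) E) :=
    fromBlocks (A.map C) (U.map C) (-D) 1 with hM
  set W : Finset (Fin (s + Fintype.card J)) :=
    (Finset.univ.map ⟨fun j : J => e.symm (Sum.inr j), fun a b h => by
      simpa using h⟩) with hW
  have hWc : W.card ≤ m := by
    rw [hW, Finset.card_map, Finset.card_univ]
    exact hJ
  have hmem : ∀ j : J, e.symm (Sum.inr j) ∈ W := fun j =>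
    Finset.mem_map.2 ⟨j, Finset.mem_univ _, rfl⟩
  obtain ⟨c, w, B, hw, hB, hdet⟩ := det_elim (δ := δ) (M.submatrix e e) W hWc
    (fun i hi j => by
      rw [submatrix_apply]
      rcases h : e i with a | a
      · rcases e j with b | b
        · exact ⟨A a b, by rw [hM, fromBlocks_apply₁₁, map_apply]⟩
        · exact ⟨U a b, by rw [hM, fromBlocks_apply₁₂, map_apply]⟩
      · exfalso
        apply hi
        have := hmem a
        rwa [← h, Equiv.symm_apply_apply] at this)
    (fun i j => by
      rw [submatrix_apply]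
      rcases e i with a | a <;> rcases e j with b | b
      · rw [hM, fromBlocks_apply₁₁, map_apply, totalDegree_C]
        exact Nat.zero_le _
      · rw [hM, fromBlocks_apply₁₂, map_apply, totalDegree_C]
        exact Nat.zero_le _
      · rw [hM, fromBlocks_apply₂₁, Matrix.neg_apply, totalDegree_neg]
        exact hD _ _
      · rw [hM, fromBlocks_apply₂₂, one_apply]
        split_ifs <;> simp)
  refine ⟨c, w, B, hw, hB, ?_⟩
  rw [← hdet, det_submatrix_equiv_self, hM, det_border]

end Pool.AnySize
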