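import Pool.Agent.Helper34.AnySize.Elim
import Pool.Agent.Helper76.CDET.Machine

/-!
The auxiliary variables as elements of the field (helper34): zero tests and degrees do not change.
-/

set_option autoImplicit false
set_option linter.unusedSectionVars false

namespace Pool.AnySize

open MvPolynomial Pool.Agent.Helper76.CDET

variable (F Y : Type) [Field F]

/-- the algebraic closure of the field of rational functions in the auxiliary variables -/
abbrev Big : Type := AlgebraicClosure (FractionRing (MvPolynomial Y F))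

/-- the inclusion of the polynomials in the auxiliary variables -/
noncomputable def inc : MvPolynomial Y F →+* Big F Y :=
  (algebraMap (FractionRing (MvPolynomial Y F)) (Big F Y)).comp
    (algebraMap (MvPolynomial Y F) (FractionRing (MvPolynomial Y F)))

theorem inc_injective : Function.Injective (inc F Y) :=
  (FaithfulSMul.algebraMap_injective (FractionRing (MvPolynomial Y F)) (Big F Y)).comp
    (IsFractionRing.injective (MvPolynomial Y F) (FractionRing (MvPolynomial Y F)))

variable (V : Type)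

/-- the transfer to the big field -/
noncomputable def tr : MvPolynomial (V ⊕ Y) F →+* MvPolynomial (V ⊕ Empty) (Big F Y) :=
  ((rename Sum.inl : MvPolynomial V (Big F Y) →ₐ[Big F Y]
    MvPolynomial (V ⊕ Empty) (Big F Y)).toRingHom.comp (map (inc F Y))).comp
    (sumRingEquiv F V Y).toRingHom

variable {F Y V}

theorem tr_injective : Function.Injective (tr F Y V) := by
  intro p q h
  have h1 : rename (Sum.inl : V → V ⊕ Empty) (map (inc F Y) (sumRingEquiv F V Y p)) =
      rename (Sum.inl : V → V ⊕ Empty) (map (inc F Y) (sumRingEquiv F V Y q)) := h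
  exact (sumRingEquiv F V Y).injective
    (map_injective _ (inc_injective F Y) (rename_injective _ Sum.inl_injective h1))

theorem tr_C (a : F) : tr F Y V (C a) = C (inc F Y (C a)) := by
  have h1 : tr F Y V (C a) =
      rename (Sum.inl : V → V ⊕ Empty) (map (inc F Y) (sumRingEquiv F V Y (C a))) := rfl
  rw [h1, sumRingEquiv_C, map_C, rename_C]

theorem tr_inl (e : V) : tr F Y V (X (Sum.inl e)) = X (Sum.inl e) := by
  have h1 : tr F Y V (X (Sum.inl e)) =
      rename (Sum.inl : V → V ⊕ Empty) (map (inc F Y) (sumRingEquiv F V Y (X (Sum.inl e)))) := rfl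
  rw [h1, sumRingEquiv_X_inl, map_X, rename_X]

theorem tr_inr (y : Y) : tr F Y V (X (Sum.inr y)) = C (inc F Y (X y)) := by
  have h1 : tr F Y V (X (Sum.inr y)) =
      rename (Sum.inl : V → V ⊕ Empty) (map (inc F Y) (sumRingEquiv F V Y (X (Sum.inr y)))) := rfl
  rw [h1, sumRingEquiv_X_inr, map_C, rename_C]

theorem tr_rename_inr (p : MvPolynomial Y F) : tr F Y V (rename Sum.inr p) = C (inc F Y p) := by
  have h1 : ((tr F Y V).comp (rename Sum.inr : MvPolynomial Y F →ₐ[F] _).toRingHom) =
      (C : Big F Y →+* MvPolynomial (V ⊕ Empty) (Big F Y)).comp (inc F Y) := by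
    apply MvPolynomial.ringHom_ext
    · intro a
      change tr F Y V (rename Sum.inr (C a)) = C (inc F Y (C a))
      rw [rename_C, tr_C]
    · intro y
      change tr F Y V (rename Sum.inr (X y)) = C (inc F Y (X y))
      rw [rename_X, tr_inr]
  exact RingHom.congr_fun h1 p

/-- zero tests do not change -/
theorem tr_restr [DecidableEq V] (S : Finset V) (f : MvPolynomial (V ⊕ Y) F) :
    tr F Y V (restr S f) = restr S (tr F Y V f) := by
  have h1 : (tr F Y V).comp (aeval (Sum.elim (fun e => if e ∈ S then X (Sum.inl e) else 0)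
      (fun y => X (Sum.inr y))) : MvPolynomial (V ⊕ Y) F →ₐ[F] MvPolynomial (V ⊕ Y) F).toRingHom =
      (aeval (Sum.elim (fun e => if e ∈ S then X (Sum.inl e) else 0)
      (fun y => X (Sum.inr y))) : MvPolynomial (V ⊕ Empty) (Big F Y) →ₐ[Big F Y]
        MvPolynomial (V ⊕ Empty) (Big F Y)).toRingHom.comp (tr F Y V) := by
    apply MvPolynomial.ringHom_ext
    · intro a
      change tr F Y V (aeval _ (C a)) = aeval _ (tr F Y V (C a))
      rw [tr_C, aeval_C, aeval_C, algebraMap_eq, algebraMap_eq, tr_C]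
    · rintro (e | y)
      · change tr F Y V (aeval _ (X (Sum.inl e))) = aeval _ (tr F Y V (X (Sum.inl e)))
        rw [tr_inl, aeval_X, aeval_X, Sum.elim_inl, Sum.elim_inl]
        split_ifs
        · rw [tr_inl]
        · rw [map_zero]
      · change tr F Y V (aeval _ (X (Sum.inr y))) = aeval _ (tr F Y V (X (Sum.inr y)))
        rw [tr_inr, aeval_X, aeval_C, algebraMap_eq, Sum.elim_inr, tr_inr]
  exact RingHom.congr_fun h1 f

theorem tr_restr_ne [DecidableEq V] (S : Finset V) (f : MvPolynomial (V ⊕ Y) F) :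
    restr S (tr F Y V f) ≠ 0 ↔ restr S f ≠ 0 := by
  rw [← tr_restr]
  exact (map_ne_zero_iff _ tr_injective)

section degrees

/-- all monomials have the exponents `κ` in the input variables -/
def Expo {E Z : Type} [Field E] (κ : V → ℕ) (g : MvPolynomial (V ⊕ Z) E) : Prop :=
  ∀ ν ∈ g.support, ∀ e, ν (Sum.inl e) = κ e

theorem Expo.C {E Z : Type} [Field E] (c : E) :
    Expo (fun _ => 0) (MvPolynomial.C c : MvPolynomial (V ⊕ Z) E) := by
  classical
  intro ν hν e
  rw [mem_support_iff, coeff_C] at hν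
  have h : 0 = ν := by
    by_contra h
    exact hν (if_neg h)
  rw [← h]
  rfl

theorem Expo.X [DecidableEq V] {E Z : Type} [Field E] (e : V) :
    Expo (fun e' => if e' = e then 1 else 0)
      (MvPolynomial.X (Sum.inl e) : MvPolynomial (V ⊕ Z) E) := by
  classical
  intro ν hν e'
  rw [support_X, Finset.mem_singleton] at hν
  subst hν
  rw [Finsupp.single_apply]
  simp only [Sum.inl.injEq, eq_comm]

theorem Expo.mul {E Z : Type} [Field E] {κ κ' : V → ℕ} {g g' : MvPolynomial (V ⊕ Z) E}
    (h : Expo κ g) (h' : Expo κ' g') : Expo (fun e => κ e + κ' e) (g * g') := by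
  classical
  intro ν hν e
  have h1 := support_mul _ _ hν
  rw [Finset.mem_add] at h1
  obtain ⟨a, ha, b, hb, rfl⟩ := h1
  rw [Finsupp.add_apply, h a ha e, h' b hb e]

theorem Expo.one {E Z : Type} [Field E] :
    Expo (fun _ => 0) (1 : MvPolynomial (V ⊕ Z) E) := by
  rw [← C_1]
  exact Expo.C 1

theorem Expo.pow {E Z : Type} [Field E] {κ : V → ℕ} {g : MvPolynomial (V ⊕ Z) E}
    (h : Expo κ g) (n : ℕ) : Expo (fun e => n * κ e) (g ^ n) := by
  induction n with
  | zero =>
    rw [pow_zero]
    simpa using Expo.one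
  | succ n ih =>
    rw [pow_succ]
    have h1 := ih.mul h
    intro ν hν e
    rw [h1 ν hν e]
    ring

theorem Expo.prod {E Z ι : Type} [Field E] (s : Finset ι) (κ : ι → V → ℕ)
    (g : ι → MvPolynomial (V ⊕ Z) E) (h : ∀ i ∈ s, Expo (κ i) (g i)) :
    Expo (fun e => ∑ i ∈ s, κ i e) (∏ i ∈ s, g i) := by
  classical
  induction s using Finset.induction_on with
  | empty =>
    rw [Finset.prod_empty]
    simpa using Expo.one
  | insert a s ha ih =>
    rw [Finset.prod_insert ha]
    have h1 := (h a (Finset.mem_insert_self a s)).mul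
      (ih fun i hi => h i (Finset.mem_insert_of_mem hi))
    intro ν hν e
    rw [h1 ν hν e]
    simp only [Finset.sum_insert ha]

theorem expo_tr_monomial (μ : (V ⊕ Y) →₀ ℕ) (a : F) :
    Expo (fun e => μ (Sum.inl e)) (tr F Y V (monomial μ a)) := by
  classical
  have h1 : tr F Y V (monomial μ a) =
      C (inc F Y (C a)) * ∏ v ∈ μ.support, tr F Y V (X v) ^ μ v := by
    rw [monomial_eq, map_mul, tr_C, Finsupp.prod, map_prod]
    simp only [map_pow]
  have h2 : ∀ v ∈ μ.support, Expo (fun e => μ v * (if v = Sum.inl e then 1 else 0))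
      (tr F Y V (X v) ^ μ v) := by
    intro v _
    apply Expo.pow (κ := fun e => if v = Sum.inl e then 1 else 0)
    rcases v with e | y
    · rw [tr_inl]
      have := Expo.X (Z := Empty) (E := Big F Y) e
      simpa [eq_comm] using this
    · rw [tr_inr]
      have := Expo.C (V := V) (Z := Empty) (E := Big F Y) (inc F Y (X y))
      simpa using this
  rw [h1]
  have h3 := (Expo.C (V := V) (Z := Empty) (inc F Y (C a))).mul (Expo.prod _ _ _ h2)
  intro ν hν e
  rw [h3 ν hν e]
  simp only [zero_add]
  rw [Finset.sum_eq_single (Sum.inl e)]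
  · simp
  · intro v _ hv
    rw [if_neg hv, mul_zero]
  · intro h4
    rw [Finsupp.notMem_support_iff.1 h4, zero_mul]

/-- the exponents of the input variables do not change -/
theorem tr_expo (f : MvPolynomial (V ⊕ Y) F) (ν : (V ⊕ Empty) →₀ ℕ)
    (hν : ν ∈ (tr F Y V f).support) : ∃ μ ∈ f.support, ∀ e, ν (Sum.inl e) = μ (Sum.inl e) := by
  classical
  rw [f.as_sum, map_sum] at hν
  have h1 := support_sum hν
  rw [Finset.mem_biUnion] at h1
  obtain ⟨μ, hμ, h2⟩ := h1
  exact ⟨μ, hμ, fun e => expo_tr_monomial μ _ ν h2 e⟩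

theorem totalDegree_tr [Fintype V] {δ : ℕ} (f : MvPolynomial (V ⊕ Y) F)
    (hf : ∀ μ ∈ f.support, ∑ e, μ (Sum.inl e) ≤ δ) : (tr F Y V f).totalDegree ≤ δ := by
  classical
  refine Finset.sup_le fun ν hν => ?_
  obtain ⟨μ, hμ, h1⟩ := tr_expo f ν hν
  refine le_trans (le_of_eq ?_) (hf μ hμ)
  rw [Finsupp.sum_fintype _ _ (fun _ => rfl), Fintype.sum_sum_type]
  simp only [Finset.univ_eq_empty, Finset.sum_empty, add_zero]
  exact Finset.sum_congr rfl fun e _ => h1 e

theorem tr_const [Fintype V] (f : MvPolynomial (V ⊕ Y) F)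
    (hf : ∀ μ ∈ f.support, ∑ e, μ (Sum.inl e) ≤ 0) : ∃ c, tr F Y V f = C c := by
  have h1 := Nat.le_zero.1 (totalDegree_tr f hf)
  exact ⟨_, totalDegree_eq_zero_iff_eq_C.1 h1⟩

end degrees

end Pool.AnySize
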