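import Pool.Agent.Helper34.AnySize.PfElim
import Pool.Agent.Helper34.AnySize.Rank
import Pool.Agent.Helper34.AnySize.Transfer
import Pool.Agent.Helper34.FunK
import Pool.Agent.PF.Cayley

/-!
Gates of arbitrary size (helper34): determinants with at most `m` rows in which the input variables
occur, determinants `det (A + ∑ x_e B_e)` with matrices `B_e` whose ranks sum to at most `m`, and
Pfaffians with a principal submatrix of order at most `2 m` in which the input variables occur; and
sums of functions of such gates.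
-/

set_option autoImplicit false

namespace Pool.AnySize

open MvPolynomial Matrix Pool.PF Pool.FunK Pool.Agent.Helper76.CDET

variable {F Y V : Type} [Field F] [Fintype V]

/-- a determinant of any order, with at most `m` rows in which variables of `V` occur; or a
determinant `det (A + ∑ x_e B_e)` of any order, where the matrices `A` and `B_e` are free of the
variables of `V` and the ranks of the `B_e` sum to at most `m`; or a Pfaffian of any order, in which
the variables of `V` occur only in a principal submatrix of order at most `2 m`. The entries have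
degree at most `1` in the variables of `V` -/
def IsGate (m : ℕ) (G : MvPolynomial (V ⊕ Y) F) : Prop :=
  (∃ (s : ℕ) (A : Matrix (Fin s) (Fin s) (MvPolynomial (V ⊕ Y) F)) (W : Finset (Fin s)),
    W.card ≤ m ∧
    (∀ i j, ∀ ν ∈ (A i j).support, ∑ e, ν (Sum.inl e) ≤ if i ∈ W then 1 else 0) ∧
    G = A.det) ∨
  (∃ (s : ℕ) (A : Matrix (Fin s) (Fin s) (MvPolynomial Y F))
    (B : V → Matrix (Fin s) (Fin s) (MvPolynomial Y F)),
    ∑ e, ((B e).map (algebraMap (MvPolynomial Y F) (FractionRing (MvPolynomial Y F)))).rank ≤ m ∧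
    G = (A.map (rename Sum.inr) +
      ∑ e, (X (Sum.inl e) : MvPolynomial (V ⊕ Y) F) • (B e).map (rename Sum.inr)).det) ∨
  (∃ (s : ℕ) (A : Matrix (Fin (2 * s)) (Fin (2 * s)) (MvPolynomial (V ⊕ Y) F))
    (W : Finset (Fin (2 * s))), W.card ≤ 2 * m ∧
    (∀ i j, ∀ ν ∈ (A i j).support, ∑ e, ν (Sum.inl e) ≤ if i ∈ W ∧ j ∈ W then 1 else 0) ∧
    G = pf s A)

/-- a sum of `T` polynomials of degree at most `g` in `a` gates; the coefficients are polynomials in
the auxiliary variables -/
def IsGateSum (T a g m : ℕ) (f : MvPolynomial (V ⊕ Y) F) : Prop :=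
  ∃ (P : Fin T → MvPolynomial (Fin a) (MvPolynomial Y F))
    (G : Fin T → Fin a → MvPolynomial (V ⊕ Y) F),
    (∀ t, (P t).totalDegree ≤ g) ∧ (∀ t i, IsGate m (G t i)) ∧
    f = ∑ t,
      eval₂ (rename Sum.inr : MvPolynomial Y F →ₐ[F] MvPolynomial (V ⊕ Y) F).toRingHom
        (G t) (P t)

theorem det_eq_pf {E σ : Type} [Field E] {w δ : ℕ} (B : Matrix (Fin w) (Fin w) (MvPolynomial σ E))
    (hB : ∀ i j, (B i j).totalDegree ≤ δ) :
    ∃ A : Matrix (Fin (2 * w)) (Fin (2 * w)) (MvPolynomial σ E),
      (∀ i j, (A i j).totalDegree ≤ δ) ∧ B.det = pf w A := by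
  obtain ⟨A, -, h2, h3⟩ := exists_pf_eq_det B
  refine ⟨A, fun i j => ?_, h3.symm⟩
  rcases h2 i j with h | ⟨i', j', h | h⟩
  · rw [h]
    simp
  · rw [h]
    exact hB _ _
  · rw [h, totalDegree_neg]
    exact hB _ _

/-- the second kind of gates -/
theorem rank_tr {m s : ℕ} (A : Matrix (Fin s) (Fin s) (MvPolynomial Y F))
    (B : V → Matrix (Fin s) (Fin s) (MvPolynomial Y F))
    (hB : ∑ e, ((B e).map
      (algebraMap (MvPolynomial Y F) (FractionRing (MvPolynomial Y F)))).rank ≤ m) :
    ∃ (c : Big F Y) (w : ℕ) (B' : Matrix (Fin w) (Fin w) (MvPolynomial (V ⊕ Empty) (Big F Y))),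
      w ≤ m ∧ (∀ i j, (B' i j).totalDegree ≤ 1) ∧
      tr F Y V (A.map (rename Sum.inr) +
        ∑ e, (X (Sum.inl e) : MvPolynomial (V ⊕ Y) F) • (B e).map (rename Sum.inr)).det =
        C c * B'.det := by
  classical
  set K := FractionRing (MvPolynomial Y F) with hK
  choose U D hUD using fun e => rank_factor ((B e).map (algebraMap (MvPolynomial Y F) K))
  let r : V → ℕ := fun e => ((B e).map (algebraMap (MvPolynomial Y F) K)).rank
  let al : K →+* Big F Y := algebraMap K (Big F Y)
  obtain ⟨c, w, B', hw, hB', hdet⟩ := det_rank (E := Big F Y) (V := V) (Z := Empty)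
    (J := Σ e : V, Fin (r e)) (m := m) (δ := 1) (A.map (inc F Y))
    (of fun i x => al (U x.1 i x.2))
    (of fun x j => X (Sum.inl x.1) * C (al (D x.1 x.2 j)))
    (by
      rw [Fintype.card_sigma]
      simpa using hB)
    (fun i j => by
      rw [of_apply]
      refine (totalDegree_mul _ _).trans ?_
      rw [totalDegree_C, add_zero, totalDegree_X])
  refine ⟨c, w, B', hw, hB', ?_⟩
  rw [← hdet, RingHom.map_det]
  congr 1
  refine Matrix.ext fun i j => ?_
  rw [RingHom.mapMatrix_apply, map_apply, Matrix.add_apply, Matrix.add_apply, map_add, map_apply,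
    map_apply, tr_rename_inr, map_apply]
  congr 1
  rw [Matrix.sum_apply, map_sum, Matrix.mul_apply, Fintype.sum_sigma]
  refine Finset.sum_congr rfl fun e _ => ?_
  rw [Matrix.smul_apply, smul_eq_mul, map_mul, tr_inl, map_apply, tr_rename_inr]
  have h1 : inc F Y (B e i j) = ∑ l, al (U e i l) * al (D e l j) := by
    have h2 := congrFun (congrFun (hUD e) i) j
    rw [map_apply, Matrix.mul_apply] at h2
    simp only [← map_mul, ← map_sum]
    rw [← h2]
    rfl
  rw [h1, map_sum, Finset.mul_sum]
  refine Finset.sum_congr rfl fun l _ => ?_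
  rw [map_apply, of_apply, of_apply, map_mul]
  ring

theorem gate_tr {m : ℕ} {G : MvPolynomial (V ⊕ Y) F} (hG : IsGate m G) :
    ∃ (c : Big F Y) (w : ℕ)
      (B : Matrix (Fin (2 * w)) (Fin (2 * w)) (MvPolynomial (V ⊕ Empty) (Big F Y))),
      w ≤ 2 * m ∧ (∀ i j, (B i j).totalDegree ≤ 1) ∧ tr F Y V G = C c * pf w B := by
  rcases hG with ⟨s, A, W, hW, hA, rfl⟩ | ⟨s, A, B, hB, rfl⟩ | ⟨s, A, W, hW, hA, rfl⟩
  · have h1 : tr F Y V A.det = (A.map (tr F Y V)).det := by
      rw [RingHom.map_det]
      rfl
    obtain ⟨c, w, B, hw, hB, hdet⟩ := det_elim (E := Big F Y) (δ := 1) (A.map (tr F Y V)) W hW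
      (fun i hi j => by
        rw [map_apply]
        refine tr_const _ fun ν hν => ?_
        have := hA i j ν hν
        rwa [if_neg hi] at this)
      (fun i j => by
        rw [map_apply]
        refine totalDegree_tr _ fun ν hν => (hA i j ν hν).trans ?_
        split_ifs <;> simp)
    obtain ⟨A', hA', h2⟩ := det_eq_pf B hB
    exact ⟨c, w, A', by omega, hA', by rw [h1, hdet, h2]⟩
  · obtain ⟨c, w, B', hw, hB', h1⟩ := rank_tr A B hB
    obtain ⟨A', hA', h2⟩ := det_eq_pf B' hB'
    exact ⟨c, w, A', by omega, hA', by rw [h1, h2]⟩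
  · have h1 : tr F Y V (pf s A) = pf s (A.map (tr F Y V)) := map_pf (tr F Y V) s A
    obtain ⟨c, w, B, hw, hB, hpf⟩ := pf_elim (E := Big F Y) (δ := 1) (A.map (tr F Y V)) W hW
      (fun i j hij => by
        rw [map_apply]
        refine tr_const _ fun ν hν => ?_
        have := hA i j ν hν
        rwa [if_neg hij] at this)
      (fun i j => by
        rw [map_apply]
        refine totalDegree_tr _ fun ν hν => (hA i j ν hν).trans ?_
        split_ifs <;> simp)
    exact ⟨c, w, B, hw, hB, by rw [h1, hpf]⟩

/-- scaling of the variables and change of the coefficients -/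
noncomputable def scale {R S ι : Type} [CommRing R] [CommRing S] (φ : R →+* S) (c : ι → S) :
    MvPolynomial ι R →+* MvPolynomial ι S :=
  eval₂Hom ((C : S →+* MvPolynomial ι S).comp φ) fun i => C (c i) * X i

theorem totalDegree_scale {R S ι : Type} [CommRing R] [CommRing S] (φ : R →+* S) (c : ι → S)
    (P : MvPolynomial ι R) : (scale φ c P).totalDegree ≤ P.totalDegree := by
  classical
  rw [scale, coe_eval₂Hom, eval₂_eq]
  refine (totalDegree_finsetSum _ _).trans (Finset.sup_le fun d hd => ?_)
  refine (totalDegree_mul _ _).trans ?_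
  rw [RingHom.comp_apply, totalDegree_C, zero_add]
  refine (totalDegree_finsetProd _ _).trans ?_
  refine le_trans (Finset.sum_le_sum (g := fun i => d i) fun i _ => ?_) (le_totalDegree hd)
  refine (totalDegree_pow _ _).trans ?_
  have h1 : (C (c i) * X i : MvPolynomial ι S).totalDegree ≤ 1 := by
    refine (totalDegree_mul _ _).trans ?_
    rw [totalDegree_C, zero_add]
    refine Finset.sup_le fun μ hμ => ?_
    have h2 := support_monomial_subset (a := (1 : S)) hμ
    rw [Finset.mem_singleton] at h2
    rw [h2]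
    simp
  calc d i * (C (c i) * X i : MvPolynomial ι S).totalDegree ≤ d i * 1 := Nat.mul_le_mul_left _ h1
    _ = d i := mul_one _

theorem eval₂_scale {R S U ι : Type} [CommRing R] [CommRing S] [CommRing U] (φ : R →+* S)
    (c : ι → S) (ψ : S →+* U) (v : ι → U) (P : MvPolynomial ι R) :
    eval₂ ψ v (scale φ c P) = eval₂ (ψ.comp φ) (fun i => ψ (c i) * v i) P := by
  have h1 : (eval₂Hom ψ v).comp (scale φ c) = eval₂Hom (ψ.comp φ) fun i => ψ (c i) * v i := by
    apply MvPolynomial.ringHom_ext
    · intro a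
      simp [scale]
    · intro i
      simp [scale]
  exact RingHom.congr_fun h1 P

/-- sums of functions of gates become sums of functions of small Pfaffians -/
theorem gateSum_tr {T a g m : ℕ} {f : MvPolynomial (V ⊕ Y) F} (hf : IsGateSum T a g m f) :
    IsFunSum (F := Big F Y) (V := V) (Ya := Empty) T a g (2 * m) 1 0 (tr F Y V f) := by
  obtain ⟨P, G, hP, hG, hf⟩ := hf
  choose c w B hw hB hGB using fun t i => gate_tr (hG t i)
  refine ⟨w, fun _ => 1, fun t => scale ((C : Big F Y →+* MvPolynomial Empty (Big F Y)).comp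
    (inc F Y)) (fun i => C (c t i)) (P t), B, hw, ?_, ?_, ?_, ?_⟩
  · intro t μ hμ
    classical
    have h1 : μ = 0 := by
      rw [mem_support_iff, coeff_one] at hμ
      by_contra h
      exact hμ (if_neg fun h' => h h'.symm)
    simp [h1]
  · intro t
    exact (totalDegree_scale _ _ _).trans (hP t)
  · intro t i p q μ hμ
    have h1 := le_totalDegree hμ
    rw [Finsupp.sum_fintype _ _ (fun _ => rfl), Fintype.sum_sum_type] at h1
    simp only [Finset.univ_eq_empty, Finset.sum_empty, add_zero] at h1
    exact h1.trans (hB t i p q)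
  · rw [hf, map_sum]
    refine Finset.sum_congr rfl fun t _ => ?_
    rw [one_mul, eval₂_scale]
    have h1 : tr F Y V (eval₂ (rename Sum.inr : MvPolynomial Y F →ₐ[F]
        MvPolynomial (V ⊕ Y) F).toRingHom (G t) (P t)) =
        eval₂ ((tr F Y V).comp (rename Sum.inr : MvPolynomial Y F →ₐ[F]
        MvPolynomial (V ⊕ Y) F).toRingHom) (fun i => tr F Y V (G t i)) (P t) := by
      rw [← coe_eval₂Hom, ← coe_eval₂Hom]
      rw [← RingHom.comp_apply]
      congr 1
      apply MvPolynomial.ringHom_ext
      · intro a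
        simp
      · intro i
        simp
    rw [h1]
    congr 1
    · refine RingHom.ext fun p => ?_
      change tr F Y V (rename Sum.inr p) = rename Sum.inr (C (inc F Y p))
      rw [tr_rename_inr, rename_C]
    · funext i
      rw [hGB t i]
      congr 1
      change C (c t i) = rename Sum.inr (C (c t i))
      rw [rename_C]

end Pool.AnySize
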