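import Pool.Agent.Helper34.AnySize.Elim
import Pool.Agent.PF.Cayley

/-!
Pfaffians of arbitrary size: only the order of a principal submatrix which contains all the
variables matters (helper34).
-/

set_option autoImplicit false

namespace Pool.AnySize

open MvPolynomial Matrix Pool.PF

variable {E σ : Type} [Field E]

/-- the alternating matrix with the given entries above the diagonal -/
def altM {R : Type*} [CommRing R] {n : ℕ} (A : Matrix (Fin n) (Fin n) R) :
    Matrix (Fin n) (Fin n) R :=
  Matrix.of fun i j => if i < j then A i j else if j < i then - A j i else 0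

theorem altM_isAlt {R : Type*} [CommRing R] {n : ℕ} (A : Matrix (Fin n) (Fin n) R) :
    IsAlt (altM A) := by
  constructor
  · intro i j
    simp only [altM, Matrix.of_apply]
    rcases lt_trichotomy i j with h | h | h
    · rw [if_pos h, if_neg h.le.not_gt, if_pos h, neg_neg]
    · subst h; simp
    · rw [if_neg h.le.not_gt, if_pos h, if_pos h]
  · intro i
    simp [altM]

theorem pf_altM {R : Type*} [CommRing R] (k : ℕ) (A : Matrix (Fin (2 * k)) (Fin (2 * k)) R) :
    pf k (altM A) = pf k A := by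
  refine pf_congr k fun i j hij => ?_
  simp [altM, hij]

theorem isAlt_congr {n k : Type} [Fintype n] {R : Type} [CommRing R] {A : Matrix n n R}
    (hA : IsAlt A) (P : Matrix n k R) : IsAlt (Pᵀ * A * P) := by
  have hsk : Aᵀ = -A := by
    ext i j
    rw [transpose_apply, neg_apply]
    exact hA.1 j i
  constructor
  · intro i j
    have h1 : (Pᵀ * A * P)ᵀ = -(Pᵀ * A * P) := by
      rw [transpose_mul, transpose_mul, transpose_transpose, hsk, Matrix.neg_mul, Matrix.mul_neg,
        Matrix.mul_assoc]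
    have h2 := congrFun (congrFun h1 j) i
    rw [transpose_apply, neg_apply] at h2
    exact h2
  · intro i
    have h3 : (Pᵀ * A * P) i i = ∑ j, ∑ l, P j i * A j l * P l i := by
      rw [Matrix.mul_apply]
      simp only [Matrix.mul_apply, transpose_apply, Finset.sum_mul]
      rw [Finset.sum_comm]
    rw [h3]
    classical
    -- the terms cancel in pairs
    have h4 : ∑ j, ∑ l, P j i * A j l * P l i =
        ∑ p : n × n, P p.1 i * A p.1 p.2 * P p.2 i := by
      rw [Fintype.sum_prod_type]
    rw [h4]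
    refine Finset.sum_involution (fun p _ => (p.2, p.1)) ?_ ?_ ?_ ?_
    · rintro ⟨j, l⟩ _
      simp only
      rw [hA.1 l j]
      ring
    · rintro ⟨j, l⟩ _ h5
      simp only at h5
      intro h6
      simp only [Prod.mk.injEq] at h6
      rw [h6.1, hA.2] at h5
      simp at h5
    · intro p _
      exact Finset.mem_univ _
    · intro p _
      rfl

theorem isAlt_inv {n : Type} [Fintype n] [DecidableEq n] {A : Matrix n n E} (hA : IsAlt A)
    (hdet : A.det ≠ 0) : IsAlt A⁻¹ := by
  have hu := isUnit_iff_ne_zero.2 hdet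
  have hsk : Aᵀ = -A := by
    ext i j
    rw [transpose_apply, neg_apply]
    exact hA.1 j i
  have h1 : (A⁻¹)ᵀ = -A⁻¹ := by
    rw [transpose_nonsing_inv, hsk]
    rw [inv_eq_right_inv]
    rw [neg_mul_neg, Matrix.mul_nonsing_inv A hu]
  have h2 : A⁻¹ = -((A⁻¹)ᵀ * A * A⁻¹) := by
    rw [h1, Matrix.neg_mul, Matrix.nonsing_inv_mul A hu, Matrix.neg_mul, Matrix.one_mul, neg_neg]
  have h3 := isAlt_congr hA A⁻¹
  rw [h2]
  exact ⟨fun i j => by rw [neg_apply, neg_apply, h3.1 i j], fun i => by rw [neg_apply, h3.2 i, neg_zero]⟩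

theorem isAlt_submatrix {n k : Type} {R : Type} [CommRing R] {A : Matrix n n R} (hA : IsAlt A)
    (f : k → n) : IsAlt (A.submatrix f f) := ⟨fun _ _ => hA.1 _ _, fun _ => hA.2 _⟩

theorem isAlt_map {n : Type} {R S : Type} [CommRing R] [CommRing S] {A : Matrix n n R}
    (hA : IsAlt A) (φ : R →+* S) : IsAlt (A.map φ) :=
  ⟨fun i j => by rw [Matrix.map_apply, Matrix.map_apply, hA.1 i j, map_neg],
    fun i => by rw [Matrix.map_apply, hA.2 i, map_zero]⟩

/-- the block matrix with rows `(A, 1)` and `(-1, D)` -/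
abbrev blk {n : Type} [DecidableEq n] {R : Type} [CommRing R] (A D : Matrix n n R) :
    Matrix (n ⊕ n) (n ⊕ n) R :=
  fromBlocks A (1 : Matrix n n R) (-1 : Matrix n n R) D

theorem isAlt_blocks {n : Type} [DecidableEq n] {R : Type} [CommRing R] {A D : Matrix n n R}
    (hA : IsAlt A) (hD : IsAlt D) :
    IsAlt (fromBlocks A (1 : Matrix n n R) (-1 : Matrix n n R) D) := by
  constructor
  · rintro (i | i) (j | j)
    · rw [fromBlocks_apply₁₁, fromBlocks_apply₁₁, hA.1]
    · rw [fromBlocks_apply₁₂, fromBlocks_apply₂₁, neg_apply, neg_neg, one_apply, one_apply]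
      simp only [eq_comm]
    · rw [fromBlocks_apply₁₂, fromBlocks_apply₂₁, neg_apply, one_apply, one_apply]
      simp only [eq_comm]
    · rw [fromBlocks_apply₂₂, fromBlocks_apply₂₂, hD.1]
  · rintro (i | i)
    · rw [fromBlocks_apply₁₁, hA.2]
    · rw [fromBlocks_apply₂₂, hD.2]

/-- the determinant of the alternating block matrix -/
theorem det_blocks {n : Type} [Fintype n] [DecidableEq n] {R : Type} [CommRing R] [IsDomain R]
    (A D : Matrix n n R) :
    (fromBlocks A (1 : Matrix n n R) (-1 : Matrix n n R) D).det = (1 + A * D).det *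
      (fromBlocks (0 : Matrix n n R) (1 : Matrix n n R) (-1 : Matrix n n R) (0 : Matrix n n R)).det := by
  have h1 : fromBlocks A (1 : Matrix n n R) (-1 : Matrix n n R) D * fromBlocks D (1 : Matrix n n R) (1 : Matrix n n R) (0 : Matrix n n R) =
      fromBlocks (1 + A * D) A (0 : Matrix n n R) (-1 : Matrix n n R) := by
    rw [fromBlocks_multiply]
    congr 1
    · rw [Matrix.mul_one, add_comm]
    · rw [Matrix.mul_one, Matrix.mul_zero, add_zero]
    · rw [Matrix.neg_mul, Matrix.one_mul, Matrix.mul_one, neg_add_cancel]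
    · rw [Matrix.mul_one, Matrix.mul_zero, add_zero]
  have h2 : fromBlocks D (1 : Matrix n n R) (1 : Matrix n n R) (0 : Matrix n n R) =
      fromBlocks (1 : Matrix n n R) D (0 : Matrix n n R) (1 : Matrix n n R) *
        fromBlocks (0 : Matrix n n R) (1 : Matrix n n R) (1 : Matrix n n R) (0 : Matrix n n R) := by
    rw [fromBlocks_multiply]
    congr 1
    · rw [Matrix.mul_zero, Matrix.mul_one, zero_add]
    · rw [Matrix.mul_one, Matrix.mul_zero, add_zero]
    · rw [Matrix.mul_one, Matrix.mul_zero, zero_add]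
    · rw [Matrix.zero_mul, Matrix.mul_zero, add_zero]
  have h3 : (fromBlocks D (1 : Matrix n n R) (1 : Matrix n n R) (0 : Matrix n n R)).det =
      (fromBlocks (0 : Matrix n n R) (1 : Matrix n n R) (1 : Matrix n n R) (0 : Matrix n n R)).det := by
    rw [h2, det_mul, det_fromBlocks_zero₂₁, det_one, one_mul, one_mul]
  have h4 : fromBlocks (0 : Matrix n n R) (1 : Matrix n n R) (-1 : Matrix n n R) (0 : Matrix n n R) *
        fromBlocks (0 : Matrix n n R) (1 : Matrix n n R) (1 : Matrix n n R) (0 : Matrix n n R) =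
      fromBlocks (1 : Matrix n n R) (0 : Matrix n n R) (0 : Matrix n n R) (-1 : Matrix n n R) := by
    rw [fromBlocks_multiply]
    congr 1
    · rw [Matrix.mul_zero, Matrix.mul_one, zero_add]
    · rw [Matrix.zero_mul, Matrix.mul_zero, add_zero]
    · rw [Matrix.mul_zero, Matrix.zero_mul, add_zero]
    · rw [Matrix.mul_one, Matrix.mul_zero, add_zero]
  have h5 : fromBlocks (0 : Matrix n n R) (1 : Matrix n n R) (1 : Matrix n n R) (0 : Matrix n n R) *
      fromBlocks (0 : Matrix n n R) (1 : Matrix n n R) (1 : Matrix n n R) (0 : Matrix n n R) = 1 := by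
    rw [fromBlocks_multiply, ← fromBlocks_one]
    congr 1
    · rw [Matrix.mul_zero, Matrix.mul_one, zero_add]
    · rw [Matrix.zero_mul, Matrix.mul_zero, add_zero]
    · rw [Matrix.mul_zero, Matrix.zero_mul, add_zero]
    · rw [Matrix.mul_one, Matrix.mul_zero, add_zero]
  have h6 : (fromBlocks (0 : Matrix n n R) (1 : Matrix n n R) (1 : Matrix n n R)
      (0 : Matrix n n R)).det ≠ 0 := by
    intro h
    have := congrArg Matrix.det h5
    rw [det_mul, h, mul_zero, det_one] at this
    exact zero_ne_one this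
  have h7 := congrArg Matrix.det h1
  rw [det_mul, h3, det_fromBlocks_zero₂₁] at h7
  have h8 := congrArg Matrix.det h4
  rw [det_mul, det_fromBlocks_zero₂₁, det_one, one_mul] at h8
  apply mul_right_cancel₀ h6
  rw [h7, mul_assoc, h8]

/-- ELIMINATION for Pfaffians -/
theorem pf_elim [Infinite E] {s m δ : ℕ}
    (A : Matrix (Fin (2 * s)) (Fin (2 * s)) (MvPolynomial σ E))
    (W : Finset (Fin (2 * s))) (hW : W.card ≤ m)
    (h0 : ∀ i j, ¬ (i ∈ W ∧ j ∈ W) → ∃ c, A i j = C c)
    (h1 : ∀ i j, (A i j).totalDegree ≤ δ) :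
    ∃ (c : E) (w : ℕ) (B : Matrix (Fin (2 * w)) (Fin (2 * w)) (MvPolynomial σ E)), w ≤ m ∧
      (∀ i j, (B i j).totalDegree ≤ δ) ∧ pf s A = C c * pf w B := by
  classical
  by_cases hpf : pf s A = 0
  · refine ⟨0, 0, fun _ _ => 0, Nat.zero_le _, fun i j => by simp, by rw [hpf]; simp⟩
  set A' := altM A with hA'
  have halt : IsAlt A' := altM_isAlt A
  have hpf' : pf s A' = pf s A := pf_altM s A
  have h0' : ∀ i j, ¬ (i ∈ W ∧ j ∈ W) → ∃ c, A' i j = C c := by
    intro i j hij
    rw [hA', altM, of_apply]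
    split_ifs with h2 h3
    · exact h0 i j hij
    · obtain ⟨c, hc⟩ := h0 j i (fun h => hij ⟨h.2, h.1⟩)
      exact ⟨-c, by rw [hc, map_neg]⟩
    · exact ⟨0, by rw [map_zero]⟩
  have h1' : ∀ i j, (A' i j).totalDegree ≤ δ := by
    intro i j
    rw [hA', altM, of_apply]
    split_ifs
    · exact h1 i j
    · rw [totalDegree_neg]
      exact h1 j i
    · simp
  have hdet : A'.det ≠ 0 := by
    rw [← pf_sq halt, hpf']
    exact pow_ne_zero 2 hpf
  obtain ⟨x0, hx0⟩ := exists_eval_ne A'.det hdet
  set Q : Matrix (Fin (2 * s)) (Fin (2 * s)) E := A'.map (eval x0) with hQ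
  have hQdet : Q.det ≠ 0 := by
    rw [hQ, ← RingHom.mapMatrix_apply, ← RingHom.map_det]
    exact hx0
  have hQalt : IsAlt Q := isAlt_map halt (eval x0)
  have hQQ' : Q * Q⁻¹ = 1 := Matrix.mul_nonsing_inv Q (isUnit_iff_ne_zero.2 hQdet)
  set QC : Matrix (Fin (2 * s)) (Fin (2 * s)) (MvPolynomial σ E) := Q.map C with hQC
  set Qi : Matrix (Fin (2 * s)) (Fin (2 * s)) (MvPolynomial σ E) := (Q⁻¹).map C with hQi
  -- the difference
  let v : {i // i ∈ W} → Fin (2 * s) := Subtype.val
  set Δ : Matrix {i // i ∈ W} {i // i ∈ W} (MvPolynomial σ E) :=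
    (A' - QC).submatrix v v with hΔ
  set U : Matrix (Fin (2 * s)) {i // i ∈ W} (MvPolynomial σ E) :=
    of fun i w => if i = w.1 then 1 else 0 with hU
  have hUD : A' - QC = U * Δ * Uᵀ := by
    refine Matrix.ext fun i j => ?_
    rw [Matrix.mul_apply]
    have h3 : ∀ w, (U * Δ) i w = if h : i ∈ W then Δ ⟨i, h⟩ w else 0 := by
      intro w
      rw [Matrix.mul_apply]
      split_ifs with hi
      · rw [Finset.sum_eq_single ⟨i, hi⟩]
        · rw [hU, of_apply, if_pos rfl, one_mul]
        · intro b _ hb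
          rw [hU, of_apply, if_neg, zero_mul]
          intro h
          exact hb (Subtype.ext h.symm)
        · intro h
          exact absurd (Finset.mem_univ _) h
      · refine Finset.sum_eq_zero fun b _ => ?_
        rw [hU, of_apply, if_neg, zero_mul]
        rintro rfl
        exact hi b.2
    simp only [h3, transpose_apply]
    by_cases hij : i ∈ W ∧ j ∈ W
    · rw [Finset.sum_eq_single ⟨j, hij.2⟩]
      · rw [dif_pos hij.1, hU, of_apply, if_pos rfl, mul_one, hΔ, submatrix_apply]
      · intro b _ hb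
        rw [hU, of_apply, if_neg, mul_zero]
        intro h
        exact hb (Subtype.ext h.symm)
      · intro h
        exact absurd (Finset.mem_univ _) h
    · rw [Finset.sum_eq_zero]
      · obtain ⟨c, hc⟩ := h0' i j hij
        rw [Matrix.sub_apply, hQC, map_apply, hQ, map_apply, hc, eval_C, sub_self]
      · intro b _
        by_cases hi : i ∈ W
        · have hj : j ∉ W := fun h => hij ⟨hi, h⟩
          rw [hU, of_apply, if_neg, mul_zero]
          rintro rfl
          exact hj b.2
        · rw [dif_neg hi, zero_mul]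
  set CW : Matrix {i // i ∈ W} {i // i ∈ W} (MvPolynomial σ E) :=
    Qi.submatrix v v with hCW
  have hCU : Uᵀ * Qi * U = CW := by
    refine Matrix.ext fun a b => ?_
    rw [Matrix.mul_apply, Finset.sum_eq_single b.1]
    · rw [Matrix.mul_apply, Finset.sum_eq_single a.1]
      · rw [transpose_apply, hU, of_apply, of_apply, if_pos rfl, if_pos rfl, one_mul, mul_one, hCW,
          submatrix_apply]
      · intro i _ hi
        rw [transpose_apply, hU, of_apply, if_neg hi, zero_mul]
      · intro h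
        exact absurd (Finset.mem_univ _) h
    · intro i _ hi
      rw [hU, of_apply, if_neg hi, mul_zero]
    · intro h
      exact absurd (Finset.mem_univ _) h
  have hCmap : QC * Qi = 1 := by
    rw [hQC, hQi, ← Matrix.map_mul, hQQ', Matrix.map_one _ (map_zero _) (map_one _)]
  have hdetA : A'.det = C Q.det * (1 + Δ * CW).det := by
    have h3 : A' = QC * (1 + (Qi * U) * (Δ * Uᵀ)) := by
      rw [Matrix.mul_add, Matrix.mul_one, ← Matrix.mul_assoc QC (Qi * U) (Δ * Uᵀ),
        ← Matrix.mul_assoc QC Qi U, hCmap, Matrix.one_mul, ← Matrix.mul_assoc, ← hUD]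
      abel
    have h4 : QC.det = C Q.det := by
      have h2 := RingHom.map_det (C : E →+* MvPolynomial σ E) Q
      rw [h2]
      rfl
    rw [h3, det_mul, h4, det_one_add_mul_comm]
    congr 2
    rw [Matrix.mul_assoc, ← Matrix.mul_assoc Uᵀ, hCU]
  -- the block matrix
  have hΔalt : IsAlt Δ := by
    refine isAlt_submatrix ⟨fun i j => ?_, fun i => ?_⟩ v
    · have h5 := (isAlt_map hQalt (C : E →+* MvPolynomial σ E)).1 i j
      rw [Matrix.sub_apply, Matrix.sub_apply, halt.1 i j, hQC, h5]
      ring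
    · have h5 := (isAlt_map hQalt (C : E →+* MvPolynomial σ E)).2 i
      rw [Matrix.sub_apply, halt.2 i, hQC, h5, sub_zero]
  have hCalt : IsAlt CW :=
    isAlt_submatrix (isAlt_map (isAlt_inv hQalt hQdet) (C : E →+* MvPolynomial σ E)) v
  have hcard : Fintype.card (Fin (2 * W.card)) = Fintype.card ({i // i ∈ W} ⊕ {i // i ∈ W}) := by
    rw [Fintype.card_sum, Fintype.card_coe, Fintype.card_fin]
    omega
  let e : Fin (2 * W.card) ≃ {i // i ∈ W} ⊕ {i // i ∈ W} := Fintype.equivOfCardEq hcard
  set B : Matrix (Fin (2 * W.card)) (Fin (2 * W.card)) (MvPolynomial σ E) :=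
    (fromBlocks Δ (1 : Matrix {i // i ∈ W} {i // i ∈ W} (MvPolynomial σ E))
      (-1 : Matrix {i // i ∈ W} {i // i ∈ W} (MvPolynomial σ E)) CW).submatrix e e with hB
  set B0 : Matrix (Fin (2 * W.card)) (Fin (2 * W.card)) E :=
    (fromBlocks (0 : Matrix {i // i ∈ W} {i // i ∈ W} E) (1 : Matrix {i // i ∈ W} {i // i ∈ W} E)
      (-1 : Matrix {i // i ∈ W} {i // i ∈ W} E)
      (0 : Matrix {i // i ∈ W} {i // i ∈ W} E)).submatrix e e with hB0
  have hz : ∀ R : Type, ∀ _ : CommRing R, IsAlt (0 : Matrix {i // i ∈ W} {i // i ∈ W} R) := by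
    intro R _
    exact ⟨fun i j => by simp, fun i => rfl⟩
  have hBsq : pf W.card B ^ 2 = (1 + Δ * CW).det *
      (blk (0 : Matrix {i // i ∈ W} {i // i ∈ W} (MvPolynomial σ E)) 0).det := by
    rw [pf_sq (isAlt_submatrix (isAlt_blocks hΔalt hCalt) e), det_submatrix_equiv_self, det_blocks]
  have hB0sq : pf W.card B0 ^ 2 =
      (blk (0 : Matrix {i // i ∈ W} {i // i ∈ W} E) 0).det := by
    rw [pf_sq (isAlt_submatrix (isAlt_blocks (hz E _) (hz E _)) e), det_submatrix_equiv_self]
  have hN0 : (blk (0 : Matrix {i // i ∈ W} {i // i ∈ W} (MvPolynomial σ E)) 0).det =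
      C ((blk (0 : Matrix {i // i ∈ W} {i // i ∈ W} E) 0).det) := by
    rw [RingHom.map_det (C : E →+* MvPolynomial σ E)]
    congr 1
    refine Matrix.ext fun i j => ?_
    rcases i with i | i <;> rcases j with j | j
    · simp
    · simp only [RingHom.mapMatrix_apply, map_apply, fromBlocks_apply₁₂, one_apply]
      split_ifs <;> simp
    · simp only [RingHom.mapMatrix_apply, map_apply, fromBlocks_apply₂₁, Matrix.neg_apply, one_apply]
      split_ifs <;> simp
    · simp
  have hb0 : pf W.card B0 ≠ 0 := by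
    intro h
    rw [h, zero_pow (by norm_num)] at hB0sq
    have h2 : blk (0 : Matrix {i // i ∈ W} {i // i ∈ W} E) 0 *
        fromBlocks (0 : Matrix {i // i ∈ W} {i // i ∈ W} E) (-1 : Matrix {i // i ∈ W} {i // i ∈ W} E)
          (1 : Matrix {i // i ∈ W} {i // i ∈ W} E) (0 : Matrix {i // i ∈ W} {i // i ∈ W} E) = 1 := by
      rw [fromBlocks_multiply, ← fromBlocks_one]
      congr 1
      · rw [Matrix.mul_zero, Matrix.mul_one, zero_add]
      · rw [Matrix.zero_mul, Matrix.mul_zero, add_zero]
      · rw [Matrix.mul_zero, Matrix.zero_mul, add_zero]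
      · rw [neg_mul_neg, Matrix.mul_one, Matrix.mul_zero, add_zero]
    have h3 := congrArg Matrix.det h2
    rw [det_mul, ← hB0sq, zero_mul, det_one] at h3
    exact zero_ne_one h3
  have hQsq : pf s Q ^ 2 = Q.det := pf_sq hQalt
  have hkey : (pf s A' * C (pf W.card B0)) ^ 2 = (C (pf s Q) * pf W.card B) ^ 2 := by
    rw [mul_pow, mul_pow, pf_sq halt, hdetA, hBsq, ← map_pow, hB0sq, hN0, ← map_pow, hQsq]
    ring
  have hCb : (C (pf W.card B0) : MvPolynomial σ E) * C (pf W.card B0)⁻¹ = 1 := by
    rw [← map_mul, mul_inv_cancel₀ hb0, map_one]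
  have hdegB : ∀ i j, (B i j).totalDegree ≤ δ := by
    intro i j
    rw [hB, submatrix_apply]
    rcases e i with a | a <;> rcases e j with b | b
    · rw [fromBlocks_apply₁₁, hΔ, submatrix_apply, Matrix.sub_apply, hQC, map_apply]
      refine (totalDegree_sub _ _).trans (max_le (h1' _ _) ?_)
      rw [totalDegree_C]
      exact Nat.zero_le _
    · rw [fromBlocks_apply₁₂, one_apply]
      split_ifs <;> simp
    · rw [fromBlocks_apply₂₁, Matrix.neg_apply, totalDegree_neg, one_apply]
      split_ifs <;> simp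
    · rw [fromBlocks_apply₂₂, hCW, submatrix_apply, hQi, map_apply, totalDegree_C]
      exact Nat.zero_le _
  rcases sq_eq_sq_iff_eq_or_eq_neg.1 hkey with h2 | h2
  · refine ⟨pf s Q * (pf W.card B0)⁻¹, W.card, B, hW, hdegB, ?_⟩
    rw [← hpf']
    calc pf s A' = pf s A' * (C (pf W.card B0) * C (pf W.card B0)⁻¹) := by rw [hCb, mul_one]
      _ = (pf s A' * C (pf W.card B0)) * C (pf W.card B0)⁻¹ := by ring
      _ = C (pf s Q * (pf W.card B0)⁻¹) * pf W.card B := by rw [h2, map_mul]; ring
  · refine ⟨-(pf s Q * (pf W.card B0)⁻¹), W.card, B, hW, hdegB, ?_⟩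
    rw [← hpf']
    calc pf s A' = pf s A' * (C (pf W.card B0) * C (pf W.card B0)⁻¹) := by rw [hCb, mul_one]
      _ = (pf s A' * C (pf W.card B0)) * C (pf W.card B0)⁻¹ := by ring
      _ = C (-(pf s Q * (pf W.card B0)⁻¹)) * pf W.card B := by rw [h2, map_neg, map_mul]; ring

end Pool.AnySize
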